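import Pool.Agent.Y343.SE.Tree
import Pool.Agent.Y343.SE.Grp

/-!
# Coarsely Lipschitz maps from the hyperbolic plane to trees have exponentially growing fibres

The question asks whether there is a regular map from the hyperbolic plane to `T₃ × Y`, `Y` of
subexponential growth. We work with *subexponential maps* `f`: coarsely Lipschitz maps such that
for every `ε > 0` at most `C_ε e^{ε r}` points of any ball of radius `r` have the same image.
Regular maps are subexponential, the class is closed under composition, and it contains the
projections `Z × Y → Z` along graphs `Y` of subexponential growth and the orbit maps of actions of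
finitely generated groups on connected graphs with a point stabiliser of subexponential growth in
the word metric. The hyperbolic plane admits no subexponential map to a tree of bounded degree.
-/

set_option autoImplicit false

namespace Pool.Agent.Results.MP_7da865_gt.SubexponentialMaps

open Pool.Agent.Results.MP_7da865_gt.NoRegularMap Pool.Agent.Y343.SE

universe u v w

/-- **The hyperbolic plane admits no subexponential map to a tree of bounded degree.**

(1) Every coarsely Lipschitz map `F` from a connected bounded-degree graph `X` quasi-isometric to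
the hyperbolic plane to a tree `T` of bounded degree has point preimages of exponential growth:
there is `ε > 0` such that for every `C` some ball of some radius `r` contains more than
`C e^{ε r}` points with the same image.

(2) More generally let `A` be a discrete metric space which receives a subexponential map from a
graph quasi-isometric to the hyperbolic plane, and `B` one which has a subexponential map to a tree
of bounded degree. Then there is no subexponential map, in particular no regular map, `A → B`.

(3) Regular maps are subexponential; compositions of subexponential maps are subexponential.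

(4) For every graph `Z` and every connected bounded-degree graph `Y` of subexponential growth the
projection `Z × Y → Z` is subexponential.

(5) Let `S` be a finite generating set of the group `G`, and let `G` act by automorphisms on a
connected graph `T` such that the stabiliser of the vertex `p` has subexponential growth in the
word metric. Then the orbit map `g ↦ g p` is subexponential; so if `T` is a tree of bounded degree,
there is no regular map from the hyperbolic plane to `G`.

(6) The question: there is no regular map from the hyperbolic plane to `T × Y` for any tree `T` of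
bounded degree and any connected bounded-degree graph `Y` of subexponential growth. -/
theorem result :
    (∀ {V : Type u} {W : Type v} (X : SimpleGraph V) (T : SimpleGraph W), X.Connected →
      BoundedDegree X → QuasiIsometricToH2 X → T.IsTree → BoundedDegree T → ∀ F : V → W,
      (∃ κ : ℝ, ∀ x x', (T.dist (F x) (F x') : ℝ) ≤ κ * X.dist x x' + κ) →
      ∃ ε : ℝ, 0 < ε ∧ ∀ C : ℝ, ∃ (x : V) (z : W) (r : ℕ),
        C * Real.exp (ε * r) < ({x' | X.dist x x' ≤ r ∧ F x' = z}.ncard : ℝ)) ∧
    (∀ {V A B : Type u} {W : Type v} (X : SimpleGraph V) (T : SimpleGraph W) (dA : A → A → ℕ)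
      (dB : B → B → ℕ) (i : V → A) (p : B → W), X.Connected → QuasiIsometricToH2 X →
      T.IsTree → BoundedDegree T → IsSubexpMap X.dist dA i → IsSubexpMap dB T.dist p →
      ∀ f : A → B, ¬ IsSubexpMap dA dB f ∧ ¬ IsRegularMap dA dB f) ∧
    (∀ {A : Type u} {B : Type v} {Z : Type w} (dA : A → A → ℕ) (dB : B → B → ℕ) (dZ : Z → Z → ℕ)
      (f : A → B) (g : B → Z), (IsRegularMap dA dB f → IsSubexpMap dA dB f) ∧
      (IsSubexpMap dA dB f → IsSubexpMap dB dZ g → IsSubexpMap dA dZ (g ∘ f))) ∧
    (∀ {W : Type u} {U : Type v} (Z : SimpleGraph W) (Y : SimpleGraph U), Y.Connected →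
      BoundedDegree Y → SubexponentialGrowth Y → IsSubexpMap (prodDist Z Y) Z.dist Prod.fst) ∧
    (∀ {G : Type u} [Group G] (S : Set G) {W : Type v} [MulAction G W] (T : SimpleGraph W)
      (p : W), S.Finite → Subgroup.closure S = ⊤ → T.Connected →
      (∀ (g : G) (a b : W), T.Adj a b → T.Adj (g • a) (g • b)) →
      (∀ ε : ℝ, 0 < ε → ∃ C : ℝ, ∀ r : ℕ,
        ({g | g • p = p ∧ (Cay S).dist 1 g ≤ r}.ncard : ℝ) ≤ C * Real.exp (ε * r)) →
      IsSubexpMap (Cay S).dist T.dist (fun g => g • p) ∧
      (T.IsTree → BoundedDegree T → ∀ {V : Type w} (X : SimpleGraph V), X.Connected →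
        QuasiIsometricToH2 X → ¬ ∃ f : V → G, IsRegularMap X.dist (Cay S).dist f)) ∧
    (∀ {V : Type u} {W : Type v} {U : Type w} (X : SimpleGraph V) (T : SimpleGraph W)
      (Y : SimpleGraph U), X.Connected → QuasiIsometricToH2 X → T.IsTree → BoundedDegree T →
      Y.Connected → BoundedDegree Y → SubexponentialGrowth Y →
      ¬ ∃ f : V → W × U, IsRegularMap X.dist (prodDist T Y) f) := by
  refine ⟨?_, ?_, ?_, ?_, ?_, ?_⟩
  · intro V W X T hX hXd hXH hT hTd F hF
    by_contra hcon
    push Not at hcon
    apply no_map X T hX hXH hT hTd F
    refine ⟨hF, fun ε hε => ?_⟩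
    obtain ⟨C, hC⟩ := hcon ε hε
    obtain ⟨e, he⟩ := hXd
    refine ⟨C, fun x z r => ⟨?_, hC x z r⟩⟩
    obtain ⟨s, _, hs⟩ := Pool.Agent.H954R3.TL.ball_cover hX e he x r
    exact s.finite_toSet.subset (fun y' hy' => hs y' hy'.1)
  · intro V A B W X T dA dB i p hX hXH hT hTd hi hp f
    have h1 : ¬ IsSubexpMap dA dB f := fun hf => no_map X T hX hXH hT hTd _ ((hi.comp hf).comp hp)
    exact ⟨h1, fun hf => h1 (IsSubexpMap.of_regular hf)⟩
  · intro A B Z dA dB dZ f g
    exact ⟨IsSubexpMap.of_regular, fun hf hg => hf.comp hg⟩
  · intro W U Z Y h1 h2 h3
    exact IsSubexpMap.fst Z Y h1 h2 h3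
  · intro G _ S W _ T p hSf hS hT hact hgrow
    have h1 := orbit_map T hSf hS hT hact p hgrow
    refine ⟨h1, ?_⟩
    rintro hTt hTd V X hX hXH ⟨f, hf⟩
    exact no_map X T hX hXH hTt hTd _ ((IsSubexpMap.of_regular hf).comp h1)
  · rintro V W U X T Y hX hXH hT hTd hY hYd hYg ⟨f, hf⟩
    exact no_map X T hX hXH hT hTd _
      ((IsSubexpMap.of_regular hf).comp (IsSubexpMap.fst T Y hY hYd hYg))

end Pool.Agent.Results.MP_7da865_gt.SubexponentialMaps
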